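import Pool.Agent.H32.Sph

set_option autoImplicit false

namespace Pool.Agent.Results.MP_7cef9e_pr.NoConv

open MeasureTheory Filter Topology Complex Pool.Agent.H32.Sph

noncomputable section

variable {N : ℕ} [MeasurableSpace (Matrix.unitaryGroup (Fin (N + 1)) ℂ)]

/-- `I_n(z, E) = ∫ exp (n tr (U D U* E)) dm(U)` with `n = N + 1` and `D = diag (z, 0, ..., 0)`. -/
def sphInt (m : Measure (Matrix.unitaryGroup (Fin (N + 1)) ℂ))
    (E : Matrix (Fin (N + 1)) (Fin (N + 1)) ℂ) (z : ℂ) : ℂ :=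
  ∫ U, exp (((N : ℂ) + 1) * Matrix.trace (U.1 *
    Matrix.diagonal (fun i : Fin (N + 1) => if i = 0 then z else 0) * star U.1 * E)) ∂m

/-- `f_n(z) = ∂_z I_n(z, E) / (n I_n(z, E))` with `n = N + 1`. -/
def logDer (m : Measure (Matrix.unitaryGroup (Fin (N + 1)) ℂ))
    (E : Matrix (Fin (N + 1)) (Fin (N + 1)) ℂ) (z : ℂ) : ℂ :=
  deriv (sphInt m E) z / (((N : ℂ) + 1) * sphInt m E z)

end

theorem result [∀ N : ℕ, MeasurableSpace (Matrix.unitaryGroup (Fin (N + 1)) ℂ)]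
    [∀ N : ℕ, BorelSpace (Matrix.unitaryGroup (Fin (N + 1)) ℂ)]
    (m : ∀ N : ℕ, Measure (Matrix.unitaryGroup (Fin (N + 1)) ℂ))
    [∀ N, IsProbabilityMeasure (m N)] [∀ N, (m N).IsMulLeftInvariant] :
    ∃ l : ∀ N : ℕ, Fin (N + 1) → ℝ, (∀ N i, |l N i| ≤ 1) ∧
      (∀ g : ℝ → ℝ, Tendsto (fun N : ℕ => (∑ i, g (l N i)) / ((N : ℝ) + 1)) atTop (𝓝 (g 0))) ∧
      ∃ z : ℂ, 0 < z.im ∧ 1 - 1 / z ≠ 0 ∧
        Tendsto (fun N : ℕ => logDer (m N) (Matrix.diagonal fun i => (l N i : ℂ)) z) atTop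
          (𝓝 (1 - 1 / z)) := by
  refine ⟨fun N i => if i = 0 then 1 else 0, fun N i => by dsimp only; split_ifs <;> simp, fun g => ?_,
    4 + I, by simp, ?_, ?_⟩
  · have t1 : Tendsto (fun N : ℕ => (g 1 - g 0) / ((N : ℝ) + 1)) atTop (𝓝 0) :=
      (tendsto_atTop_add_const_right _ _ tendsto_natCast_atTop_atTop).const_div_atTop _
    have t2 := t1.const_add (g 0)
    rw [add_zero] at t2
    refine t2.congr fun N => ?_
    rw [Fin.sum_univ_succ]
    simp [Fin.succ_ne_zero]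
    field_simp
    ring
  · intro h
    have h0 : (4 + I : ℂ) ≠ 0 := fun e => by simpa using congrArg im e
    rw [sub_eq_zero, eq_div_iff h0] at h
    simpa using congrArg im h
  · have h1 : (4 : ℝ) ≤ ‖(4 + I : ℂ)‖ := by simpa using Complex.re_le_norm (4 + I)
    have h2 : ‖(4 + I : ℂ)‖ ≤ 5 := (norm_add_le _ _).trans (by simp; norm_num)
    have h3 : Real.exp 1 * ‖(4 + I : ℂ)‖ < Real.exp (4 + I : ℂ).re := by
      have e : (4 + I : ℂ).re = 1 + (1 + 1 + 1) := by simp; norm_num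
      rw [e, Real.exp_add, Real.exp_add, Real.exp_add]
      refine mul_lt_mul_of_pos_left ?_ (Real.exp_pos _)
      have := Real.exp_one_gt_d9
      nlinarith [mul_pos (Real.exp_pos 1) (Real.exp_pos 1)]
    refine (limit m (by linarith) h3).congr fun N => ?_
    have e : sphInt (m N) (Matrix.diagonal fun i => (((if i = 0 then 1 else 0 : ℝ)) : ℂ)) =
        fun ζ : ℂ => ∫ U, exp ((N + 1) * ζ * (u U 0 * (starRingEnd ℂ) (u U 0))) ∂m N := by
      funext ζ
      refine integral_congr_ae (ae_of_all _ fun U => ?_)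
      simp only [Matrix.trace, Matrix.diag, Matrix.mul_apply, u,
        apply_ite ofReal]
      simp [Matrix.diagonal_apply]
      ring_nf
    simp only [logDer, e]

end Pool.Agent.Results.MP_7cef9e_pr.NoConv
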